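import Pool.Agent.helper25.UC.A1
import Pool.Agent.helper25.UC.B3

/-!
# B4 : the engine

Let `z ∈ Reg`, `(c,r)` a maximiser for `z`, `d² = dsq(z,(c,r))`, `n0 = card V`.  Put
`x_w := (dsq(z^w,(c,r)) - dsq(z,(c,r)))/τ`.

* `env(z^w) ≥ val at z^w of (c,r) = Th - dsq(z^w,(c,r))/τ = env(z) - x_w` (`le_env`, `env_eq`).
* `|x_w| ≤ n0 (2d+1)/τ` by `step_dsq_abs`.
* `∑ n_w x_w ≤ (1/τ)(2 AA(z,z) - 2 AA(z,r) + n0 tot)` by `step_dsq_le` (hypothesis: off `I`
  `r ≥ 0`; on `I` colours agree and `n ≥ 1`) and `step_weight`;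
  and `2 AA(z,r) ≥ AA(z,z) + AA(r,r) - n0 d²` by `four_point`.
  So `-∑ n_w x_w ≥ (1/τ)(AA(r,r) - AA(z,z) - n0 d² - n0 tot)`.
* `AA(r,r) - AA(z,z) = Th(r) - Th(z) + E(∑r² - qq z) + ∑ (E_j - E)(a_j(r)² - a_j(z)²)`,
  the last sum is `0` by `a_eq`; `Th(r) - d²/τ = env ≥ Th(z)` (`env_ge_Th`);
  `∑ r² - qq = 2τ env + d²` by `scale`.  So
  `-∑ n_w x_w ≥ 2E env + (1/τ)(1/τ + E - n0) d² - n0 tot/τ ≥ 2 E env + d²/(2τ²) - n0 tot/τ`,
  because `1/(2τ) ≥ 8 (n0+2)² ≥ 2 n0 + 2 ≥ n0 - E`.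
-/

namespace UC
open Finset
variable {V : Type} [Fintype V] [DecidableEq V] {s k : ℕ}
variable {G : SimpleGraph V} [DecidableRel G.Adj]

theorem Flag.engine (F : Flag G s k) (τ : ℝ) (hτ : 0 < τ) (hτ0 : τ ≤ tau0 V) :
    ∃ δ0 > 0, ∃ C > 0, ∀ E : ℝ, |E| ≤ cV V + 2 → ∀ δx δo : ℝ, 0 ≤ δx → δx ≤ δ0 → 0 ≤ δo →
      δo ≤ δ0 → ∀ z, F.Reg δx δo z → ∀ c r, F.IsMx E τ z c r →
      F.MxFacts E τ z c r ∧
      ∃ x : V → ℝ, (∀ w, F.env E τ z - x w ≤ F.env E τ (step G z w)) ∧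
        (∀ w, |x w| ≤ C * (Real.sqrt (dsq z.c (nR z) c r) + 1)) ∧
        2 * E * F.env E τ z + dsq z.c (nR z) c r / (2 * τ ^ 2) - C * tot z ≤
          - ∑ w, (z.n w : ℝ) * x w := by
  obtain ⟨δ0, hδ0, hmx⟩ := F.mx_facts τ hτ hτ0
  have hn0 : 0 ≤ cV V := Nat.cast_nonneg _
  have hCpos : 0 < (2 * cV V + 1) / τ := by positivity
  refine ⟨δ0, hδ0, (2 * cV V + 1) / τ, hCpos, ?_⟩
  intro E hE δx δo hx0 hx ho0 ho z hz c r hcr
  have hM := hmx E hE δx δo hx0 hx ho0 ho z hz c r hcr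
  obtain ⟨hR1, hR2, hR3, hR4, hR5, hR6⟩ := hz
  have hadm : F.Adm c r := hcr.1
  have henv : F.env E τ z = F.Th E c r - dsq z.c (nR z) c r / τ := F.env_eq E τ z c r hcr
  refine ⟨hM, fun w => (dsq (step G z w).c (nR (step G z w)) c r - dsq z.c (nR z) c r) / τ,
    ?_, ?_, ?_⟩
  · intro w
    have h1 := F.le_env E τ hE hτ hτ0 (step G z w) c r hadm
    unfold Flag.val at h1
    have h2 : F.env E τ z - (dsq (step G z w).c (nR (step G z w)) c r - dsq z.c (nR z) c r) / τ =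
        F.Th E c r - dsq (step G z w).c (nR (step G z w)) c r / τ := by
      rw [henv]
      ring
    rw [h2]
    exact h1
  · intro w
    have h1 := step_dsq_abs (G := G) z w c r
    have hd : 0 ≤ Real.sqrt (dsq z.c (nR z) c r) := Real.sqrt_nonneg _
    show |(dsq (step G z w).c (nR (step G z w)) c r - dsq z.c (nR z) c r) / τ| ≤ _
    rw [abs_div, abs_of_pos hτ, div_le_iff₀ hτ]
    have h2 : (2 * cV V + 1) / τ * (Real.sqrt (dsq z.c (nR z) c r) + 1) * τ =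
        (2 * cV V + 1) * (Real.sqrt (dsq z.c (nR z) c r) + 1) := by
      field_simp
    rw [h2]
    refine h1.trans ?_
    nlinarith [mul_nonneg hn0 hd]
  · have hstep : ∀ w, (z.n w : ℝ) *
        (dsq (step G z w).c (nR (step G z w)) c r - dsq z.c (nR z) c r) ≤
        (z.n w : ℝ) * (∑ u, if G.Adj w u then
        2 * eps (z.c u) (z.c w) * (z.n u : ℝ) + 1 - 2 * eps (z.c w) (c u) * r u else 0) := by
      intro w
      refine mul_le_mul_of_nonneg_left ?_ (Nat.cast_nonneg _)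
      refine step_dsq_le (G := G) z w c r fun u => ?_
      by_cases hu : u ∈ F.I
      · right
        exact ⟨by rw [(hR2 u hu).1, hadm.1 u hu], (hR2 u hu).2⟩
      · left
        exact hadm.2 u hu
    have hsum := (Finset.sum_le_sum fun w (_ : w ∈ Finset.univ) => hstep w).trans
      (step_weight (G := G) z c r)
    have hfp : AA G z.c (nR z) z.c (nR z) + AA G c r c r - 2 * AA G z.c (nR z) c r ≤
        cV V * dsq z.c (nR z) c r := by
      refine four_point z.c (nR z) c r fun v => ?_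
      by_cases hv : v ∈ F.I
      · left
        rw [(hR2 v hv).1, hadm.1 v hv]
      · right
        exact ⟨Nat.cast_nonneg _, hadm.2 v hv⟩
    have hThz : F.Th E z.c (nR z) ≤ F.env E τ z :=
      F.env_ge_Th E τ hE hτ hτ0 z fun v hv => (hR2 v hv).1
    have hscale := hM.scale
    have haj : ∑ j, (F.E j - E) * F.a j r ^ 2 = ∑ j, (F.E j - E) * F.a j (nR z) ^ 2 :=
      Finset.sum_congr rfl fun j _ => by rw [hM.a_eq j]
    have hqq : qq z = ∑ v, nR z v ^ 2 := rfl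
    have h1 : F.Th E c r = AA G c r c r - E * ∑ v, r v ^ 2 - ∑ j, (F.E j - E) * F.a j r ^ 2 := rfl
    have h2 : F.Th E z.c (nR z) = AA G z.c (nR z) z.c (nR z) - E * ∑ v, nR z v ^ 2 -
      ∑ j, (F.E j - E) * F.a j (nR z) ^ 2 := rfl
    rw [← hqq] at h2
    have htot : 0 ≤ tot z := by linarith
    have hd : 0 ≤ dsq z.c (nR z) c r := dsq_nonneg _ _ _ _
    have hE' := abs_le.1 hE
    have hS : ∑ w, (z.n w : ℝ) *
        ((dsq (step G z w).c (nR (step G z w)) c r - dsq z.c (nR z) c r) / τ) =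
        (∑ w, (z.n w : ℝ) *
        (dsq (step G z w).c (nR (step G z w)) c r - dsq z.c (nR z) c r)) / τ := by
      rw [Finset.sum_div]
      exact Finset.sum_congr rfl fun w _ => by ring
    rw [hS]
    have hinv : 2 * cV V + 2 ≤ 1 / (2 * τ) := by
      rw [le_div_iff₀ (by positivity)]
      have h3 : τ ≤ 1 / (16 * (cV V + 2) ^ 2) := hτ0
      rw [le_div_iff₀ (by positivity)] at h3
      nlinarith [mul_nonneg hτ.le hn0, mul_nonneg (mul_nonneg hτ.le hn0) hn0]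
    set A := ∑ w, (z.n w : ℝ) *
        (dsq (step G z w).c (nR (step G z w)) c r - dsq z.c (nR z) c r) with hA
    set d2 := dsq z.c (nR z) c r with hd2
    set e := F.env E τ z with he
    have hdτ : F.Th E c r = e + d2 / τ := by linarith
    -- A ≤ ...
    have h4 : A ≤ -(d2 / τ) - E * (2 * τ * e + d2) + cV V * d2 + cV V * tot z := by
      have h5 : ∑ v, r v ^ 2 - qq z = 2 * τ * e + d2 := by linarith
      have h6 : E * (2 * τ * e + d2) = E * ∑ v, r v ^ 2 - E * qq z := by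
        rw [← h5]
        ring
      linarith
    have h7 : -(A / τ) = (-A) / τ := by ring
    rw [h7, le_div_iff₀ hτ]
    have h8 : (2 * E * e + d2 / (2 * τ ^ 2) - (2 * cV V + 1) / τ * tot z) * τ =
        2 * E * e * τ + d2 * (1 / (2 * τ)) - (2 * cV V + 1) * tot z := by
      field_simp
    rw [h8]
    have h9 : d2 / τ = d2 * (1 / (2 * τ)) + d2 * (1 / (2 * τ)) := by
      field_simp
      ring
    have h10 : d2 * (cV V - E) ≤ d2 * (1 / (2 * τ)) :=
      mul_le_mul_of_nonneg_left (by linarith [hE'.1]) hd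
    nlinarith [mul_nonneg hn0 htot]

end UC
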